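import Pool.Agent.H.MP_9d0e4c_an.Space
import Pool.Agent.H.MP_a8e783_an.Rad

namespace Pool.Agent.H.MP_9d0e4c_an

open Filter Topology Finset

open Pool.Agent.H.MP_a8e783_an (numRad numRad_le le_numRad' numRad_nonneg)

theorem norm_rot (h : ℂ) (t : ℝ) : ‖h + t • (Complex.I * h)‖ ≤ (1 + t ^ 2) * ‖h‖ := by
  have e : h + t • (Complex.I * h) = (1 + t * Complex.I) * h := by
    rw [Complex.real_smul]; ring
  rw [e, norm_mul]
  refine mul_le_mul_of_nonneg_right ?_ (norm_nonneg _)
  refine abs_le_of_sq_le_sq' ?_ (by positivity) |>.2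
  rw [Complex.sq_norm, Complex.normSq_apply]
  simp
  nlinarith [sq_nonneg t, sq_nonneg (t ^ 2)]

theorem exists_lim (f : X →L[ℝ] ℝ) :
    ∃ c, Tendsto (fun n => f (e n)) (hyperfilter ℕ : Filter ℕ) (𝓝 c) := by
  obtain ⟨c, -, h⟩ := (isCompact_closedBall (0 : ℝ) ‖f‖).ultrafilter_le_nhds
    ((hyperfilter ℕ).map fun n => f (e n)) (by
      rw [Ultrafilter.coe_map, le_principal_iff, Filter.mem_map]
      exact Eventually.of_forall fun n => by
        simpa using f.le_of_opNorm_le_of_le le_rfl (norm_e n))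
  exact ⟨c, h⟩

noncomputable def lam0 (f : X →L[ℝ] ℝ) : ℝ := (exists_lim f).choose

theorem lam0_spec (f : X →L[ℝ] ℝ) :
    Tendsto (fun n => f (e n)) (hyperfilter ℕ : Filter ℕ) (𝓝 (lam0 f)) := (exists_lim f).choose_spec

noncomputable def lam : (X →L[ℝ] ℝ) →L[ℝ] ℝ :=
  LinearMap.mkContinuous
    { toFun := lam0
      map_add' := fun f g => tendsto_nhds_unique (lam0_spec _) ((lam0_spec f).add (lam0_spec g))
      map_smul' := fun c f => tendsto_nhds_unique (lam0_spec _) ((lam0_spec f).const_mul c) } 1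
    fun f => le_of_tendsto' (lam0_spec f).norm fun n => by
      simpa using f.le_of_opNorm_le_of_le le_rfl (norm_e n)

noncomputable def T : (X →L[ℝ] ℝ) →L[ℝ] (X →L[ℝ] ℝ) :=
  (ContinuousLinearMap.apply ℝ ℝ j).smulRight σ - lam.smulRight η

theorem T_apply (f : X →L[ℝ] ℝ) (z : X) : T f z = f j * σ z - lam0 f * η z := rfl

theorem T_norm : 1 ≤ ‖T‖ := by
  have h0 : lam0 η = 0 := tendsto_nhds_unique (lam0_spec η) (by simp)
  have h1 : ‖η‖ ≤ 1 := ContinuousLinearMap.opNorm_le_bound _ zero_le_one fun z => by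
    simpa using η_le z
  have h2 := (T η).le_of_opNorm_le_of_le (T.le_of_opNorm_le_of_le le_rfl h1) (norm_e 0)
  simpa [T_apply, h0] using h2

theorem pert (z : X) (hz : ‖z‖ ≤ 1) (t : ℝ) (n : ℕ) (θ : ℝ) (hθ : 0 ≤ θ)
    (h : ∀ m, n < m → |ξ m z - σ z| ≤ θ) :
    ‖z + t • (σ z • j - η z • e n)‖ ≤ 1 + 5 / 203 * |t| + t ^ 2 + θ := by
  have t0 := abs_nonneg t
  have t2 := sq_nonneg t
  have e1 : pl (z + t • (σ z • j - η z • e n)) = pl z + t • (Complex.I * pl z) := by
    rw [H_apply, H_apply]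
    apply Complex.ext <;> simp
  have b1 : ‖pl (z + t • (σ z • j - η z • e n))‖ ≤ 1 + t ^ 2 := by
    rw [e1]
    refine (norm_rot _ _).trans ?_
    have := (H_le z).trans hz
    nlinarith
  refine (norm_le_iff _ _).2 ⟨?_, fun m => ?_, by linarith⟩
  · have a := (D_le z).trans hz
    have b := (η_le z).trans hz
    have c : ‖D (t • (σ z • j - η z • e n))‖ ≤ |t| := by
      simp only [map_smul, map_sub, D_j, smul_zero, zero_sub, norm_smul, norm_neg, norm_D_e,
        Real.norm_eq_abs, mul_one]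
      exact mul_le_of_le_one_right t0 b
    have := norm_add_le (D z) (D (t • (σ z • j - η z • e n)))
    rw [map_add]
    linarith
  · by_cases hm : n < m
    · have a := (Complex.abs_re_le_norm _).trans b1
      have b := h m hm
      rw [H_apply] at a
      simp only [map_add, map_smul, map_sub, σ_j, σ_e, ξ_j, ξ_e, if_pos hm, smul_eq_mul] at a ⊢
      rw [abs_le] at *
      constructor <;> linarith [a.1, a.2, b.1, b.2]
    · have a := (ξ_le m z).trans hz
      simp only [map_add, map_smul, map_sub, ξ_j, ξ_e, if_neg hm, smul_eq_mul, mul_zero, sub_zero,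
        add_zero]
      linarith

theorem T_pert (f : X →L[ℝ] ℝ) (hf : ‖f‖ ≤ 1) (t : ℝ) :
    ‖f + t • T f‖ ≤ 1 + 5 / 203 * |t| + t ^ 2 := by
  refine ContinuousLinearMap.opNorm_le_of_unit_norm (by positivity) fun z hz => ?_
  refine le_of_forall_pos_le_add fun θ hθ => ?_
  have h1 : Tendsto (fun n => f (z + t • (σ z • j - η z • e n))) (hyperfilter ℕ : Filter ℕ)
      (𝓝 ((f + t • T f) z)) := by
    have := (((lam0_spec f).const_mul (η z)).const_sub (σ z * f j)).const_mul t |>.const_add (f z)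
    have e1 : (f + t • T f) z = f z + t * (σ z * f j - η z * lam0 f) := by
      rw [add_apply, smul_apply, T_apply, smul_eq_mul]; ring
    rw [e1]
    simpa using this
  obtain ⟨M, hM⟩ := Metric.tendsto_atTop.1 (ξ_tendsto z) θ hθ
  refine le_of_tendsto h1.norm (Nat.hyperfilter_le_atTop ?_)
  filter_upwards [eventually_ge_atTop M] with n hn
  simpa using f.le_of_opNorm_le_of_le hf
    (pert z hz.le t n θ hθ.le fun m hm => (hM m (by omega)).le)

theorem T_rad : numRad T ≤ 1 / 30 := by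
  refine numRad_le _ _ (by norm_num) fun f g hf hg h => ?_
  have H : ∀ t : ℝ, t * g (T f) ≤ 5 / 203 * |t| + t ^ 2 := fun t => by
    have b := g.le_of_opNorm_le_of_le hg.le (T_pert f hf.le t)
    rw [map_add, map_smul, h, one_mul, smul_eq_mul] at b
    linarith [(le_abs_self _).trans b]
  have a := H (1 / 1000)
  have b := H (-1 / 1000)
  rw [abs_of_pos (by norm_num)] at a
  rw [abs_of_neg (by norm_num)] at b
  rw [abs_le]
  constructor <;> linarith

end Pool.Agent.H.MP_9d0e4c_an
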