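import Pool.Agent.H.MP_9d0e4c_an.Lower

namespace Pool.Agent.H.MP_9d0e4c_an

open Filter Topology Finset MeasureTheory

open Pool.Agent.H.MP_a8e783_an (numRad numRad_le le_numRad' numRad_nonneg)

theorem exists_cut (F : Finset ℕ) (k : ℕ) (h : k ≤ F.card) : ∃ p, (F.filter (· < p)).card = k := by
  have ex : ∃ p, k ≤ (F.filter (· < p)).card := ⟨F.sup id + 1, by
    rwa [filter_true_of_mem (p := (· < F.sup id + 1))
      fun m hm => Nat.lt_succ_of_le (le_sup (f := id) hm)]⟩
  refine ⟨Nat.find ex, le_antisymm ?_ (Nat.find_spec ex)⟩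
  rcases h0 : Nat.find ex with _ | p
  · simp
  have h1 := Nat.find_min ex (m := p) (by omega)
  have h2 : F.filter (· < p + 1) ⊆ insert p (F.filter (· < p)) := fun m hm => by
    simp only [mem_filter, mem_insert] at *
    by_cases hp : m = p
    · exact Or.inl hp
    · exact Or.inr ⟨hm.1, by omega⟩
  have := (card_le_card h2).trans (card_insert_le _ _)
  omega

theorem co_sum (c : ℕ → ℝ) (p m : ℕ) :
    co m (∑ i ∈ range p, c i • e i) = if m < p then c m else 0 := by
  simp

theorem ξ_sum (c : ℕ → ℝ) (p n : ℕ) :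
    ξ n (∑ i ∈ range p, c i • e i) = ∑ i ∈ range (min n p), c i := by
  simp only [map_sum, map_smul, ξ_e, smul_eq_mul, mul_ite, mul_one, mul_zero]
  rw [← sum_filter]
  refine sum_congr ?_ fun _ _ => rfl
  ext i; simp; omega

variable (S : X →L[ℝ] X)

theorem group (n : ℕ) : ∀ (F : Finset ℕ) (a : X), F.card = n → (∀ m ∉ F, co m a = 0) → η a = 0 →
    (∀ k, |ξ k a| ≤ 1) → 5 / 203 * ‖D (S a)‖ ≤ 4 * numRad S * (1 + n / 18) := by
  have v0 := numRad_nonneg S
  have base : ∀ (F : Finset ℕ) (a : X), F.card ≤ 20 → (∀ m ∉ F, co m a = 0) → η a = 0 →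
      (∀ k, |ξ k a| ≤ 1) → 5 / 203 * ‖D (S a)‖ ≤ 4 * numRad S := fun F a hF hs h0 hk => by
    refine atom2 S F hF a ((norm_le_iff _ _).2 ⟨?_, hk, (H_le_add _).trans ?_⟩) hs
    · have h3 : ∑ m ∈ F, |co m a| ≤ F.card • (2 : ℝ) := sum_le_card_nsmul _ _ _ fun m _ => by
        rw [co_eq]
        exact (abs_sub _ _).trans (by linarith [hk m, hk (m + 1)])
      have h5 : (F.card : ℝ) ≤ 20 := by exact_mod_cast hF
      rw [nsmul_eq_mul] at h3
      rw [D_supp a F hs]
      linarith
    · rw [h0, abs_zero, add_zero]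
      exact le_of_tendsto' (ξ_tendsto a).abs hk
  induction n using Nat.strong_induction_on with
  | _ n ih =>
  intro F a hF hs h0 hk
  by_cases hn : n ≤ 20
  · refine (base F a (by omega) hs h0 hk).trans (le_mul_of_one_le_right (by positivity) ?_)
    have : (0 : ℝ) ≤ n / 18 := by positivity
    linarith
  obtain ⟨p, hp⟩ := exists_cut F 19 (by omega)
  have hq := card_filter_add_card_filter_not (s := F) (· < p)
  set b : X := ∑ i ∈ range p, co i a • e i - ξ p a • e p with hb
  have ξb : ∀ k, ξ k b = if k ≤ p then ξ k a else 0 := fun k => by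
    rw [hb, map_sub, ξ_sum, ← ξ_apply, map_smul, ξ_e]
    by_cases h : k ≤ p
    · rw [if_pos h, if_neg (by omega), min_eq_left h]; simp
    · rw [if_neg h, if_pos (by omega), min_eq_right (by omega)]; simp
  have cb : ∀ m, m ≠ p → co m b = if m < p then co m a else 0 := fun m hm => by
    rw [hb, map_sub, co_sum, map_smul, co_e, if_neg hm]; simp
  have ηb : η b = 0 := by simp [hb]
  have h1 := base (insert p (F.filter (· < p))) b ((card_insert_le _ _).trans (by omega))
    (fun m hm => by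
      simp only [mem_insert, mem_filter, not_or, not_and] at hm
      rw [cb m hm.1]
      split_ifs with h
      · exact hs m fun hF => hm.2 hF h
      · rfl) ηb fun k => by
      rw [ξb]; split_ifs
      · exact hk k
      · simp
  have hc := card_insert_le p (F.filter (¬ · < p))
  have h2 := ih _ (show (insert p (F.filter (¬ · < p))).card < n by omega) _ (a - b) rfl
    (fun m hm => by
      simp only [mem_insert, mem_filter, not_or, not_and] at hm
      rw [map_sub, cb m hm.1]
      split_ifs with h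
      · simp
      · rw [hs m fun hF => hm.2 hF h]; simp) (by rw [map_sub, h0, ηb, sub_zero]) fun k => by
      rw [map_sub, ξb]; split_ifs
      · simp
      · simpa using hk k
  have h3 : ((insert p (F.filter (¬ · < p))).card : ℝ) + 18 ≤ n := by
    exact_mod_cast (show (insert p (F.filter (¬ · < p))).card + 18 ≤ n by omega)
  have h4 := norm_add_le (D (S b)) (D (S (a - b)))
  rw [← map_add, ← map_add, add_sub_cancel] at h4
  nlinarith

noncomputable def χ (c ω : ℝ) : ℝ := if ω < c then 1 else 0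

theorem χ_int (c : ℝ) : IntervalIntegrable (χ c) volume (-1) 1 :=
  Antitone.intervalIntegrable fun a b h => by
    unfold χ; split_ifs <;> linarith

theorem χ_integral (c : ℝ) (h : |c| ≤ 1) : ∫ ω in (-1 : ℝ)..1, χ c ω = c + 1 := by
  rw [abs_le] at h
  have m : Antitone (χ c) := fun a b h => by
    unfold χ; split_ifs <;> linarith
  rw [← intervalIntegral.integral_add_adjacent_intervals (b := c) m.intervalIntegrable
    m.intervalIntegrable]
  have a : ∫ ω in (-1 : ℝ)..c, χ c ω = ∫ ω in (-1 : ℝ)..c, (1 : ℝ) := by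
    rw [intervalIntegral.integral_of_le h.1, intervalIntegral.integral_of_le h.1,
      integral_Ioc_eq_integral_Ioo, integral_Ioc_eq_integral_Ioo]
    exact setIntegral_congr_fun measurableSet_Ioo fun ω hω => if_pos hω.2
  have b : ∫ ω in c..1, χ c ω = ∫ ω in c..1, (0 : ℝ) :=
    intervalIntegral.integral_congr fun ω hω => by
      rw [Set.uIcc_of_le h.2] at hω
      exact if_neg (not_lt.2 hω.1)
  rw [a, b]; simp

theorem χ_abs (c c' ω : ℝ) : |χ c ω - χ c' ω| = χ (max c c') ω - χ (min c c') ω := by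
  unfold χ
  by_cases h : ω < c <;> by_cases h' : ω < c' <;> simp [h, h']

theorem layer (ψ : X →L[ℝ] ℝ) (hψ : ∀ w, ψ w ≤ 5 / 203 * ‖D (S w)‖) (z : X) (hz : ‖z‖ ≤ 1) (n : ℕ) :
    ψ (∑ m ∈ range n, co m z • e m) ≤ 18 * numRad S := by
  have v0 := numRad_nonneg S
  have hx : ∀ k, |ξ k z| ≤ 1 := fun k => (ξ_le k z).trans hz
  have pt : ∀ ω, ∑ m ∈ range n, (χ (ξ (m + 1) z) ω - χ (ξ m z) ω) * ψ (e m) ≤
      4 * numRad S + 4 * numRad S / 18 * ∑ m ∈ range n,
        (χ (max (ξ (m + 1) z) (ξ m z)) ω - χ (min (ξ (m + 1) z) (ξ m z)) ω) := fun ω => by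
    have h := (hψ _).trans (group S _ ((range n).filter fun m => χ (ξ (m + 1) z) ω ≠ χ (ξ m z) ω)
      (∑ m ∈ range n, (χ (ξ (m + 1) z) ω - χ (ξ m z) ω) • e m) rfl (fun m hm => ?_) (by simp)
      fun k => ?_)
    · rw [card_filter] at h
      simp only [map_sum, map_smul, smul_eq_mul] at h
      refine h.trans (le_of_eq ?_)
      rw [Nat.cast_sum, sum_congr rfl (g := fun m => χ (max (ξ (m + 1) z) (ξ m z)) ω -
        χ (min (ξ (m + 1) z) (ξ m z)) ω) fun m _ => ?_]
      · ring
      · rw [← χ_abs]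
        unfold χ
        by_cases h : ω < ξ (m + 1) z <;> by_cases h' : ω < ξ m z <;> simp [h, h']
    · rw [co_sum]
      split_ifs with h
      · simp only [mem_filter, mem_range, h, true_and, ne_eq, not_not] at hm
        rw [hm, sub_self]
      · rfl
    · rw [ξ_sum, sum_range_sub fun m => χ (ξ m z) ω]
      unfold χ
      split_ifs <;> simp
  have i1 : ∀ m, IntervalIntegrable (fun ω => (χ (ξ (m + 1) z) ω - χ (ξ m z) ω) * ψ (e m))
    volume (-1) 1 := fun m => ((χ_int _).sub (χ_int _)).mul_const _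
  have i2 : ∀ m, IntervalIntegrable (fun ω => χ (max (ξ (m + 1) z) (ξ m z)) ω -
    χ (min (ξ (m + 1) z) (ξ m z)) ω) volume (-1) 1 := fun m => (χ_int _).sub (χ_int _)
  have s1 := IntervalIntegrable.sum (range n) fun m _ => i1 m
  have s2 := IntervalIntegrable.sum (range n) fun m _ => i2 m
  rw [Finset.sum_fn] at s1 s2
  have h := intervalIntegral.integral_mono_on (by norm_num : (-1 : ℝ) ≤ 1) s1
    (intervalIntegrable_const.add (s2.const_mul (4 * numRad S / 18))) fun ω _ => pt ω
  rw [intervalIntegral.integral_add intervalIntegrable_const (s2.const_mul _),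
    intervalIntegral.integral_const_mul (4 * numRad S / 18),
    intervalIntegral.integral_finsetSum fun m _ => i1 m,
    intervalIntegral.integral_finsetSum fun m _ => i2 m] at h
  have e1 : ∀ m, ∫ ω in (-1 : ℝ)..1, (χ (ξ (m + 1) z) ω - χ (ξ m z) ω) * ψ (e m) =
      co m z * ψ (e m) := fun m => by
    rw [intervalIntegral.integral_mul_const, intervalIntegral.integral_sub (χ_int _) (χ_int _),
      χ_integral _ (hx _), χ_integral _ (hx _), co_eq]; ring
  have e2 : ∀ m, ∫ ω in (-1 : ℝ)..1, (χ (max (ξ (m + 1) z) (ξ m z)) ω -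
      χ (min (ξ (m + 1) z) (ξ m z)) ω) = |co m z| := fun m => by
    have a := hx m
    have b := hx (m + 1)
    rw [intervalIntegral.integral_sub (χ_int _) (χ_int _), χ_integral, χ_integral, co_eq,
      ← max_sub_min_eq_abs']
    · ring
    · rcases min_choice (ξ (m + 1) z) (ξ m z) with h | h <;> rwa [h]
    · rcases max_choice (ξ (m + 1) z) (ξ m z) with h | h <;> rwa [h]
  simp only [e1, e2, intervalIntegral.integral_const, smul_eq_mul] at h
  simp only [map_sum, map_smul, smul_eq_mul]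
  have a := sum_co_le z (range n)
  have b := (D_le z).trans hz
  nlinarith

theorem D_S (z : X) (hz : ‖z‖ ≤ 1) : 5 / 203 * ‖D (S z)‖ ≤ 22 * numRad S := by
  obtain ⟨g, hg, h⟩ := exists_dual_vector'' ℝ (D (S (z - η z • j)))
  have h1 := le_of_tendsto' ((((5 / 203 : ℝ) • g ∘L D ∘L S).continuous.tendsto _).comp
    (hasSum_e z).tendsto_sum_nat) fun n => layer S ((5 / 203 : ℝ) • g ∘L D ∘L S) (fun w => by
      have := (le_abs_self _).trans (g.le_of_opNorm_le hg (D (S w)))
      show 5 / 203 * g (D (S w)) ≤ _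
      linarith) z hz n
  have h2 : 5 / 203 * ‖D (S (z - η z • j))‖ ≤ 18 * numRad S := by
    refine le_trans (le_of_eq ?_) h1
    show _ = 5 / 203 * g (D (S (z - η z • j)))
    rw [h]; rfl
  have h3 := atom2 S ∅ (by simp) (η z • j) (by
    rw [norm_smul]
    exact mul_le_one₀ ((η_le z).trans hz) (norm_nonneg _) norm_j) (by simp)
  have h4 := norm_add_le (D (S (z - η z • j))) (D (S (η z • j)))
  rw [← map_add, ← map_add, sub_add_cancel] at h4
  linarith

theorem S_norm : ‖S‖ ≤ 22 * numRad S := by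
  have v0 := numRad_nonneg S
  refine ContinuousLinearMap.opNorm_le_of_unit_norm (by positivity) fun z hz => ?_
  refine (norm_le_iff _ _).2 ⟨D_S S z hz.le, fun n => ?_, (H_le_add _).trans ?_⟩
  · have := ξ_S S n z
    rw [hz] at this; linarith
  · have := σ_S S z
    rw [hz] at this; linarith [η_S S z hz.le]

theorem up_gen {Y : Type} [NormedAddCommGroup Y] [NormedSpace ℝ Y] (R : Y →L[ℝ] Y) (h1 : 1 ≤ ‖R‖)
    (h2 : numRad R ≤ 1 / 30) : ∃ R : Y →L[ℝ] Y, ‖R‖ = 1 ∧ numRad R ≤ 1 / 30 := by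
  have t0 : 0 < ‖R‖ := lt_of_lt_of_le one_pos h1
  refine ⟨‖R‖⁻¹ • R, by rw [norm_smul, norm_inv, norm_norm, inv_mul_cancel₀ t0.ne'], ?_⟩
  refine numRad_le _ _ (by norm_num) fun f g hf hg h => ?_
  have a := (le_numRad' R f g hf.le hg.le h).trans h2
  rw [_root_.smul_apply, map_smul, smul_eq_mul, abs_mul, abs_inv, abs_norm]
  exact (mul_le_of_le_one_left (abs_nonneg _) (inv_le_one_of_one_le₀ h1)).trans a

theorem up : ∃ R : (X →L[ℝ] ℝ) →L[ℝ] (X →L[ℝ] ℝ), ‖R‖ = 1 ∧ numRad R ≤ 1 / 30 :=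
  up_gen T T_norm T_rad

instance : Nontrivial X := ⟨j, 0, fun h => by simpa using congrArg η h⟩

theorem low {Z : Type} [NormedAddCommGroup Z] [NormedSpace ℝ Z] (I : Z ≃ₗᵢ[ℝ] X) (R : Z →L[ℝ] Z)
    (hR : ‖R‖ = 1) : 1 / 22 ≤ numRad R := by
  let J : Z →L[ℝ] X := I.toContinuousLinearEquiv
  let J' : X →L[ℝ] Z := I.symm.toContinuousLinearEquiv
  have a := S_norm (J ∘L R ∘L J')
  have b : ‖R‖ ≤ ‖J ∘L R ∘L J'‖ := ContinuousLinearMap.opNorm_le_bound _ (norm_nonneg _) fun z => by
    simpa [J, J'] using (J ∘L R ∘L J').le_opNorm (I z)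
  have c : numRad (J ∘L R ∘L J') ≤ numRad R := numRad_le _ _ (numRad_nonneg _) fun x f hx hf h =>
    le_numRad' R (I.symm x) (f ∘L J) (by simp [hx])
      (ContinuousLinearMap.opNorm_le_bound _ zero_le_one fun z => by
        simpa [J] using f.le_of_opNorm_le hf.le (I z)) (by simpa [J] using h)
  linarith

end Pool.Agent.H.MP_9d0e4c_an
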