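import Pool.Agent.H.MP_9d0e4c_an.Dual

namespace Pool.Agent.H.MP_9d0e4c_an

open Filter Topology Finset

open Pool.Agent.H.MP_a8e783_an (numRad numRad_le le_numRad' numRad_nonneg)

def Dom (f : X →L[ℝ] ℝ) (F : Finset ℕ) : Prop := ∀ w, |f w| ≤ 5 / 203 * ∑ m ∈ F, |co m w|

theorem Dom.le {f : X →L[ℝ] ℝ} {F : Finset ℕ} (h : Dom f F) (w : X) : |f w| ≤ ‖w‖ := by
  have := h w
  have := sum_co_le w F
  have := D_le w
  linarith

theorem Dom.norm_le {f : X →L[ℝ] ℝ} {F : Finset ℕ} (h : Dom f F) : ‖f‖ ≤ 1 :=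
  ContinuousLinearMap.opNorm_le_bound _ zero_le_one fun w => by simpa using h.le w

theorem Dom.add {f g : X →L[ℝ] ℝ} {F G : Finset ℕ} (h : Dom f F) (h' : Dom g G)
    (hd : Disjoint F G) : Dom (f + g) (F ∪ G) := fun w => by
  rw [sum_union hd, mul_add, _root_.add_apply]
  exact (abs_add_le _ _).trans (add_le_add (h w) (h' w))

theorem Dom.neg {f : X →L[ℝ] ℝ} {F : Finset ℕ} (h : Dom f F) : Dom (-f) F := fun w => by
  rw [_root_.neg_apply, abs_neg]; exact h w

theorem Dom.zero {f : X →L[ℝ] ℝ} {F : Finset ℕ} (h : Dom f F) (w : X) (hw : ∀ m ∈ F, co m w = 0) :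
    f w = 0 := by
  have := h w
  rw [sum_eq_zero fun m hm => by rw [hw m hm, abs_zero], mul_zero] at this
  exact abs_nonpos_iff.1 this

noncomputable def gs (F : Finset ℕ) (z : X) : X →L[ℝ] ℝ :=
  (5 / 203 : ℝ) • ∑ m ∈ F, (SignType.sign (co m z) : ℝ) • co m

theorem gs_apply (F : Finset ℕ) (z w : X) :
    gs F z w = 5 / 203 * ∑ m ∈ F, (SignType.sign (co m z) : ℝ) * co m w := by
  simp [gs]

theorem gs_self (F : Finset ℕ) (z : X) : gs F z z = 5 / 203 * ∑ m ∈ F, |co m z| := by
  simp only [gs_apply, sign_mul_self]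

theorem gs_dom (F : Finset ℕ) (z : X) : Dom (gs F z) F := fun w => by
  rw [gs_apply, abs_mul, abs_of_pos (by norm_num : (0 : ℝ) < 5 / 203)]
  refine mul_le_mul_of_nonneg_left ((abs_sum_le_sum_abs _ _).trans (sum_le_sum fun m _ => ?_))
    (by norm_num)
  rw [abs_mul]
  exact mul_le_of_le_one_left (abs_nonneg _) (sign_abs_le _)

variable (S : X →L[ℝ] X)

theorem scale (φ : X → ℝ) (c r : ℝ) (hr : 0 < r) (hφ : ∀ (t : ℝ) z, φ (t • z) = |t| * φ z)
    (h : ∀ z, ‖z‖ ≤ r → φ z ≤ c) (z : X) : φ z ≤ c / r * ‖z‖ := by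
  by_cases hz : z = 0
  · have := hφ 0 z
    rw [zero_smul, abs_zero, zero_mul] at this
    simp [hz, this]
  have z0 : 0 < ‖z‖ := norm_pos_iff.2 hz
  have := h ((r / ‖z‖) • z) (by rw [norm_smul, Real.norm_of_nonneg (by positivity)]; field_simp; rfl)
  rw [hφ, abs_of_pos (by positivity), div_mul_eq_mul_div, div_le_iff₀ z0] at this
  rw [div_mul_eq_mul_div, le_div_iff₀ hr]
  linarith

theorem ξ_S (n : ℕ) (z : X) : |ξ n (S z)| ≤ 2 * numRad S * ‖z‖ := by
  have v0 := numRad_nonneg S
  rcases n with _ | n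
  · rw [ξ_apply]; simp; positivity
  have g : ∀ y : X, ‖y‖ ≤ 1 / 2 →
      |ξ (n + 1) (S y) + (1 - ξ (n + 1) y) * ξ (n + 1) (S (e n - e (n + 1)))| ≤ numRad S :=
    fun y hy => by
    have b := (ξ_le (n + 1) y).trans hy
    have := le_numRad' S (y + (1 - ξ (n + 1) y) • (e n - e (n + 1))) (ξ (n + 1))
      ((norm_le_iff _ _).2 ⟨?_, fun m => ?_, ?_⟩)
      (ContinuousLinearMap.opNorm_le_bound _ zero_le_one fun z => by simpa using ξ_le _ z)
      (by simp)
    · simpa only [map_add, map_smul, smul_eq_mul] using this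
    · have a := (D_le y).trans hy
      have c : ‖D (e n - e (n + 1))‖ ≤ 2 := by
        rw [map_sub]; exact (norm_sub_le _ _).trans (by norm_num)
      have d : |1 - ξ (n + 1) y| ≤ 2 := by rw [abs_le] at *; constructor <;> linarith [b.1, b.2]
      have := norm_add_le (D y) ((1 - ξ (n + 1) y) • D (e n - e (n + 1)))
      rw [norm_smul, Real.norm_eq_abs] at this
      rw [map_add, map_smul]
      nlinarith [mul_le_mul d c (norm_nonneg _) (by norm_num)]
    · have a := (ξ_le m y).trans hy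
      simp only [map_add, map_smul, map_sub, ξ_e, smul_eq_mul]
      by_cases h : m = n + 1
      · simp [h]
      · have : (n < m) = (n + 1 < m) := propext (by omega)
        simp only [this, sub_self, mul_zero, add_zero]
        linarith
    · have a := (H_le y).trans hy
      rw [H_apply] at a ⊢
      simp only [map_add, map_smul, map_sub, σ_e, η_e, sub_self, smul_zero, add_zero]
      linarith
  have := scale (fun z => |ξ (n + 1) (S z)|) (numRad S) (1 / 2) (by norm_num)
    (fun t z => by simp [abs_mul]) (fun z hz => ?_) z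
  · linarith
  have a := g z hz
  have b := g (-z) (by rwa [norm_neg])
  have c := (ξ_le (n + 1) z).trans hz
  simp only [map_neg] at b
  rw [abs_le] at *
  constructor <;> nlinarith [a.1, a.2, b.1, b.2, c.1, c.2]

theorem σ_S (z : X) : |σ (S z)| ≤ 2 * numRad S * ‖z‖ :=
  le_of_tendsto' (ξ_tendsto (S z)).abs fun n => ξ_S S n z

theorem η_S0 (z : X) (hz : ‖z‖ ≤ 1) (h : σ z = 0) : |η (S z)| ≤ numRad S := by
  have g : ∀ y : X, ‖y‖ ≤ 1 → σ y = 0 → |η (S y) + (1 - η y) * η (S j)| ≤ numRad S :=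
    fun y hy h => by
    have := le_numRad' S (y + (1 - η y) • j) η
      ((norm_le_iff _ _).2 ⟨?_, fun m => ?_, ?_⟩)
      (ContinuousLinearMap.opNorm_le_bound _ zero_le_one fun z => by simpa using η_le z)
      (by simp)
    · simpa only [map_add, map_smul, smul_eq_mul] using this
    · simpa using (D_le y).trans hy
    · simpa using (ξ_le m y).trans hy
    · exact (H_le_add _).trans (by simp [h])
  have a := g z hz h
  have b := g (-z) (by rwa [norm_neg]) (by simp [h])
  have c := (η_le z).trans hz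
  simp only [map_neg] at b
  rw [abs_le] at *
  constructor <;> nlinarith [a.1, a.2, b.1, b.2, c.1, c.2]

theorem η_S (z : X) (hz : ‖z‖ ≤ 1) : |η (S z)| ≤ 8 * numRad S := by
  have v0 := numRad_nonneg S
  have n1 : ‖(3 / 5 : ℝ) • e 0 + (4 / 5 : ℝ) • j‖ ≤ 1 := by
    refine (norm_le_iff _ _).2 ⟨by simp [norm_smul]; norm_num, fun m => ?_, ?_⟩
    · simp only [map_add, map_smul, ξ_e, ξ_j]
      split_ifs <;> norm_num [abs_of_pos]
    · refine abs_le_of_sq_le_sq' ?_ zero_le_one |>.2
      rw [H_apply, Complex.sq_norm, Complex.normSq_mk]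
      simp; norm_num
  have a := le_numRad' S _ ((3 / 5 : ℝ) • σ + (4 / 5 : ℝ) • η) n1
    (ContinuousLinearMap.opNorm_le_bound _ zero_le_one fun z => by
      simpa using κ_le (3 / 5) (4 / 5) (by norm_num) z) (by simp; norm_num)
  have b := (σ_S S _).trans (mul_le_of_le_one_right (by positivity) n1)
  have c := η_S0 S j norm_j σ_j
  have s := (σ_le z).trans hz
  have d := η_S0 S ((1 / 2 : ℝ) • (z - σ z • e 0)) (by
    have := norm_sub_le z (σ z • e 0)
    rw [norm_smul, Real.norm_eq_abs] at this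
    rw [norm_smul, Real.norm_of_nonneg (by norm_num)]
    nlinarith [mul_le_mul s (norm_e 0) (norm_nonneg _) zero_le_one]) (by simp)
  simp only [map_add, map_smul, map_sub, smul_eq_mul, _root_.add_apply, _root_.smul_apply] at a b d
  have f : |η (S (e 0))| ≤ 6 * numRad S := by
    rw [abs_le] at *
    constructor <;> linarith [a.1, a.2, b.1, b.2, c.1, c.2]
  have g := mul_le_mul s f (abs_nonneg _) zero_le_one
  rw [← abs_mul] at g
  rw [abs_le] at *
  constructor <;> linarith [d.1, d.2, g.1, g.2]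

theorem c1 {f g : X →L[ℝ] ℝ} {F G : Finset ℕ} (hf : Dom f F) (hg : Dom g G) (hd : Disjoint F G)
    (z : X) (hz : ‖z‖ ≤ 1) (h1 : f z = 1) (h0 : g z = 0) : |g (S z)| ≤ numRad S := by
  have a := le_numRad' S z _ hz (hf.add hg hd).norm_le (by simp [h1, h0])
  have b := le_numRad' S z _ hz (hf.add hg.neg hd).norm_le (by simp [h1, h0])
  simp only [_root_.add_apply, _root_.neg_apply] at a b
  rw [abs_le] at *
  constructor <;> linarith [a.1, a.2, b.1, b.2]

theorem atom1 {g : X →L[ℝ] ℝ} {F G : Finset ℕ} (hg : Dom g G) (hd : Disjoint F G) (a : X)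
    (ha : ‖a‖ ≤ 1 / 2) (hs : ∀ m ∉ F, co m a = 0) : |g (S a)| ≤ numRad S := by
  obtain ⟨P, hP⟩ : ∃ P, ∀ m ∈ F ∪ G, m < P := ⟨(F ∪ G).sup id + 1, fun m hm =>
    Nat.lt_succ_of_le (le_sup (f := id) hm)⟩
  have d1 : Disjoint F (Ico P (P + 82)) := disjoint_left.2 fun m hm h => by
    have := hP m (mem_union_left _ hm); rw [mem_Ico] at h; omega
  have d2 : Disjoint (F ∪ Ico P (P + 82)) G := disjoint_union_left.2 ⟨hd,
    disjoint_left.2 fun m h hm => by
      have := hP m (mem_union_right _ hm); rw [mem_Ico] at h; omega⟩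
  have da := (D_le a).trans ha
  have n0 := norm_nonneg (D a)
  have key : ∀ b : X, ‖b‖ ≤ 1 / 2 → (∀ m ∉ F, co m b = 0) → ‖D b‖ = ‖D a‖ →
      |g (S b) + (203 / 5 - ‖D a‖) / 82 * g (S (A P 82))| ≤ numRad S := fun b hb hs he => by
    have c0 : 0 ≤ (203 / 5 - ‖D a‖) / 82 := by linarith
    have c1' : (203 / 5 - ‖D a‖) / 82 ≤ 1 / 2 := by linarith
    have := c1 S ((gs_dom F b).add (gs_dom (Ico P (P + 82)) (A P 82)) d1) hg d2
      (b + ((203 / 5 - ‖D a‖) / 82) • A P 82) ((norm_le_iff _ _).2 ⟨?_, fun m => ?_, ?_⟩) ?_ ?_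
    · simpa only [map_add, map_smul, smul_eq_mul] using this
    · have := norm_add_le (D b) (((203 / 5 - ‖D a‖) / 82) • D (A P 82))
      rw [norm_smul, Real.norm_of_nonneg c0] at this
      have h2 := mul_le_mul_of_nonneg_left (D_A P 82) c0
      rw [map_add, map_smul]
      push_cast at h2
      linarith
    · have := (ξ_le m b).trans hb
      rw [map_add, map_smul, ξ_A, smul_eq_mul]
      rw [abs_le] at *
      split_ifs <;> constructor <;> linarith [this.1, this.2]
    · have := (H_le b).trans hb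
      rw [H_apply] at this ⊢
      simp only [map_add, map_smul, σ_A, η_A, if_pos (by decide : Even 82), smul_zero, add_zero]
      linarith
    · have e1 : gs F b (A P 82) = 0 := (gs_dom F b).zero _ fun m hm => by
        have := hP m (mem_union_left _ hm); rw [co_A, if_neg (by omega)]
      have e2 : gs (Ico P (P + 82)) (A P 82) b = 0 := (gs_dom _ _).zero _ fun m hm =>
        hs m (disjoint_right.1 d1 hm)
      have e3 : ∑ m ∈ Ico P (P + 82), |co m (A P 82)| = 82 := by
        rw [sum_congr rfl (g := fun _ => (1 : ℝ)) fun m hm => by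
          rw [co_A, if_pos (mem_Ico.1 hm)]; simp]
        simp
      simp only [map_add, map_smul, _root_.add_apply, e1, e2, gs_self, e3, ← D_supp b F hs, he,
        smul_eq_mul]
      ring
    · refine hg.zero _ fun m hm => ?_
      have := hP m (mem_union_right _ hm)
      rw [map_add, map_smul, co_A, if_neg (by omega), hs m (disjoint_right.1 hd hm)]
      simp
  have k1 := key a ha hs rfl
  have k2 := key (-a) (by rwa [norm_neg]) (fun m hm => by simp [hs m hm]) (by simp)
  simp only [map_neg] at k2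
  rw [abs_le] at *
  constructor <;> linarith [k1.1, k1.2, k2.1, k2.2]

theorem atom2 (F : Finset ℕ) (hF : F.card ≤ 20) (a : X) (ha : ‖a‖ ≤ 1) (hs : ∀ m ∉ F, co m a = 0) :
    5 / 203 * ‖D (S a)‖ ≤ 4 * numRad S := by
  have v0 := numRad_nonneg S
  have : ‖D (S a)‖ ≤ 203 / 5 * (4 * numRad S) := D_le_of _ _ fun G => by
    have h1 := atom1 S (gs_dom (G \ F) (S a)) disjoint_sdiff ((1 / 2 : ℝ) • a)
      (by rw [norm_smul, Real.norm_of_nonneg (by norm_num)]; linarith) fun m hm => by simp [hs m hm]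
    rw [map_smul, map_smul, gs_self, smul_eq_mul] at h1
    have h2 := (le_abs_self _).trans h1
    have h3 : ∑ m ∈ F, |co m (S a)| ≤ F.card • (4 * numRad S) := sum_le_card_nsmul _ _ _ fun m _ => by
      have a1 := (ξ_S S (m + 1) a).trans (mul_le_of_le_one_right (by positivity) ha)
      have a2 := (ξ_S S m a).trans (mul_le_of_le_one_right (by positivity) ha)
      rw [co_eq]
      exact (abs_sub _ _).trans (by linarith)
    have h4 : ∑ m ∈ G, |co m (S a)| ≤ ∑ m ∈ G \ F, |co m (S a)| + ∑ m ∈ F, |co m (S a)| := by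
      rw [← sum_union sdiff_disjoint]
      exact sum_le_sum_of_subset_of_nonneg (by rw [sdiff_union_self_eq_union]; exact subset_union_left)
        fun _ _ _ => abs_nonneg _
    have h5 : (F.card : ℝ) ≤ 20 := by exact_mod_cast hF
    rw [nsmul_eq_mul] at h3
    nlinarith
  linarith

end Pool.Agent.H.MP_9d0e4c_an
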