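import Mathlib

namespace Pool.Agent.H.MP_9d0e4c_an

open Filter Topology MeasureTheory Finset

abbrev L1 : Type := lp (fun _ : ℕ => ℝ) 1

theorem sum_le_norm (d : L1) (s : Finset ℕ) : ∑ m ∈ s, |d m| ≤ ‖d‖ := by
  simpa using lp.sum_rpow_le_norm_rpow (p := 1) (by simp) d s

theorem norm_le_of_sum (d : L1) (c : ℝ) (h : ∀ s : Finset ℕ, ∑ m ∈ s, |d m| ≤ c) : ‖d‖ ≤ c :=
  lp.norm_le_of_forall_sum_le (p := 1) (by simp) (by simpa using h ∅) fun s => by simpa using h s

theorem sign_abs_le (a : ℝ) : |(SignType.sign a : ℝ)| ≤ 1 := by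
  rcases lt_trichotomy a 0 with h | h | h <;> simp [h]

theorem L1_rnp (f : ℝ → L1) (K : NNReal) (hf : LipschitzWith K f) :
    ∀ᵐ t ∂(volume : Measure ℝ), DifferentiableAt ℝ f t := by
  have hn : ∀ n, LipschitzWith K fun t => f t n := fun n =>
    LipschitzWith.of_dist_le_mul fun a b => by
      refine le_trans ?_ (hf.dist_le_mul a b)
      rw [dist_eq_norm, dist_eq_norm]
      exact lp.norm_apply_le_norm one_ne_zero (f a - f b) n
  have hb : ∀ t (s : Finset ℕ), ∑ n ∈ s, |deriv (fun t => f t n) t| ≤ K := fun t s => by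
    let σ : ℕ → ℝ := fun n => SignType.sign (deriv (fun t => f t n) t)
    have h1 : HasDerivAt (fun u => ∑ n ∈ s, σ n * f u n) (∑ n ∈ s, |deriv (fun t => f t n) t|) t := by
      refine HasDerivAt.fun_sum fun n _ => ?_
      by_cases h : DifferentiableAt ℝ (fun t => f t n) t
      · simpa only [σ, sign_mul_self] using h.hasDerivAt.const_mul (σ n)
      · simpa [σ, deriv_zero_of_not_differentiableAt h] using hasDerivAt_const t (0 : ℝ)
    have h2 : LipschitzWith K fun u => ∑ n ∈ s, σ n * f u n :=
      LipschitzWith.of_dist_le_mul fun a b => by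
        refine le_trans ?_ (hf.dist_le_mul a b)
        rw [dist_eq_norm, dist_eq_norm, ← sum_sub_distrib]
        refine (norm_sum_le _ _).trans (le_trans (sum_le_sum fun n _ => ?_) (sum_le_norm _ s))
        rw [← mul_sub, norm_mul]
        exact mul_le_of_le_one_left (norm_nonneg _) (sign_abs_le _)
    exact (le_abs_self _).trans (h1.le_of_lipschitz h2)
  let F : ℝ → L1 := fun t => ⟨fun n => deriv (fun t => f t n) t,
    memℓp_gen' (C := K) fun s => by simpa using hb t s⟩
  have hF : ∀ t, ‖F t‖ ≤ K := fun t => norm_le_of_sum _ _ (hb t)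
  have hm : StronglyMeasurable F := by
    refine stronglyMeasurable_of_tendsto atTop
      (f := fun N t => ∑ n ∈ range N, lp.single 1 n (deriv (fun t => f t n) t)) (fun N => ?_) ?_
    · refine Finset.stronglyMeasurable_fun_sum _ fun n _ => ?_
      exact (lp.singleContinuousLinearMap ℝ (fun _ : ℕ => ℝ) 1 n).continuous.comp_stronglyMeasurable
        (measurable_deriv _).stronglyMeasurable
    · exact tendsto_pi_nhds.2 fun t => (lp.hasSum_single (by simp) (F t)).tendsto_sum_nat
  have hl : LocallyIntegrable F volume :=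
    (locallyIntegrable_const (K : ℝ)).mono hm.aestronglyMeasurable
      (Eventually.of_forall fun t => (hF t).trans (le_abs_self _))
  have he : f = fun x => f 0 + ∫ t in (0 : ℝ)..x, F t := by
    funext x
    have hi : IntervalIntegrable F volume 0 x := intervalIntegrable_iff.mpr <|
      (hl.integrableOn_isCompact isCompact_uIcc).mono_set Set.uIoc_subset_uIcc
    ext n
    have a := (lp.evalCLM ℝ (fun _ : ℕ => ℝ) 1 n).intervalIntegral_comp_comm hi
    have b := ((hn n).lipschitzOnWith (s := Set.uIcc 0 x)).absolutelyContinuousOnInterval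
      |>.integral_deriv_eq_sub
    have c : (∫ t in (0 : ℝ)..x, F t) n = f x n - f 0 n := a.symm.trans b
    rw [lp.coeFn_add, Pi.add_apply, c]; ring
  filter_upwards [LocallyIntegrable.ae_hasDerivAt_integral hl] with t ht
  rw [he]
  exact ((ht 0).const_add _).differentiableAt

end Pool.Agent.H.MP_9d0e4c_an
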