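import Pool.Agent.H.MP_9d0e4c_an.RNP

namespace Pool.Agent.H.MP_9d0e4c_an

open Filter Topology MeasureTheory Finset

def X : Type := L1 × ℝ

noncomputable instance : AddCommGroup X := inferInstanceAs (AddCommGroup (L1 × ℝ))

noncomputable instance : Module ℝ X := inferInstanceAs (Module ℝ (L1 × ℝ))

noncomputable def ps (n : ℕ) : L1 →L[ℝ] ℝ := ∑ m ∈ range n, lp.evalCLM ℝ (fun _ : ℕ => ℝ) 1 m

theorem ps_apply (n : ℕ) (d : L1) : ps n d = ∑ m ∈ range n, d m := by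
  rw [ps, _root_.sum_apply]; rfl

theorem ps_le (n : ℕ) (d : L1) : |ps n d| ≤ ‖d‖ := by
  rw [ps_apply]; exact (abs_sum_le_sum_abs _ _).trans (sum_le_norm _ _)

noncomputable def tot : L1 →L[ℝ] ℝ := lp.tsumCLM ℝ ℕ ℝ

theorem tot_le (d : L1) : |tot d| ≤ ‖d‖ := lp.norm_tsum_le d

noncomputable def hh : (L1 × ℝ) →L[ℝ] ℂ :=
  (tot ∘L ContinuousLinearMap.fst ℝ _ _).smulRight 1 +
    (ContinuousLinearMap.snd ℝ _ _).smulRight Complex.I

theorem hh_apply (z : L1 × ℝ) : hh z = ⟨tot z.1, z.2⟩ := by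
  apply Complex.ext <;> simp [hh]

noncomputable def N (z : L1 × ℝ) : ℝ := max (5 / 203 * ‖z.1‖) (max (⨆ n, |ps n z.1|) ‖hh z‖)

theorem N_le (z : L1 × ℝ) (c : ℝ) :
    N z ≤ c ↔ 5 / 203 * ‖z.1‖ ≤ c ∧ (∀ n, |ps n z.1| ≤ c) ∧ ‖hh z‖ ≤ c := by
  rw [N, max_le_iff, max_le_iff, ciSup_le_iff ⟨‖z.1‖, by rintro _ ⟨n, rfl⟩; exact ps_le n _⟩]

theorem N_smul (c : ℝ) (z : L1 × ℝ) : N (c • z) ≤ |c| * N z := by
  obtain ⟨a1, a2, a3⟩ := (N_le z _).1 le_rfl
  have c0 := abs_nonneg c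
  refine (N_le _ _).2 ⟨?_, fun n => ?_, ?_⟩
  · rw [Prod.smul_fst, norm_smul, Real.norm_eq_abs, mul_left_comm]; gcongr
  · rw [Prod.smul_fst, map_smul, smul_eq_mul, abs_mul]; gcongr; exact a2 n
  · rw [map_smul, norm_smul, Real.norm_eq_abs]; gcongr

theorem N_ge (z : L1 × ℝ) : ‖z‖ ≤ 41 * N z := by
  obtain ⟨a1, a2, a3⟩ := (N_le z _).1 le_rfl
  have := Complex.abs_im_le_norm (hh z)
  rw [hh_apply] at this a3
  have n0 := norm_nonneg z.1
  have n1 := abs_nonneg z.2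
  exact max_le (by linarith) (by rw [Real.norm_eq_abs]; simp only at this; linarith)

noncomputable def NN : AddGroupNorm X where
  toFun := N
  map_zero' := le_antisymm ((N_le (0 : L1 × ℝ) 0).2 ⟨by simp, by simp, by simp⟩)
    (le_trans (norm_nonneg _) ((le_max_right _ _).trans (le_max_right _ _)))
  add_le' := fun (z w : L1 × ℝ) => by
    obtain ⟨a1, a2, a3⟩ := (N_le z _).1 le_rfl
    obtain ⟨b1, b2, b3⟩ := (N_le w _).1 le_rfl
    refine (N_le (z + w) _).2 ⟨?_, fun n => ?_, ?_⟩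
    · have := norm_add_le z.1 w.1
      rw [Prod.fst_add]; linarith
    · rw [Prod.fst_add, map_add]; exact (abs_add_le _ _).trans (add_le_add (a2 n) (b2 n))
    · rw [map_add]; exact (norm_add_le _ _).trans (add_le_add a3 b3)
  neg' := fun (z : L1 × ℝ) => by
    show N (-z) = N z
    simp [N]
  eq_zero_of_map_eq_zero' := fun (z : L1 × ℝ) (h : N z = 0) => by
    have := N_ge z
    rw [h, mul_zero] at this
    exact norm_le_zero_iff.1 this

noncomputable instance : NormedAddCommGroup X := NN.toNormedAddCommGroup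

noncomputable instance : NormedSpace ℝ X := ⟨N_smul⟩

noncomputable def E : X ≃L[ℝ] L1 × ℝ :=
  LinearEquiv.toContinuousLinearEquivOfBounds (LinearEquiv.refl ℝ (L1 × ℝ)) 41 2 N_ge
    fun (z : L1 × ℝ) => by
      have a := norm_fst_le z
      have b := norm_snd_le z
      have n0 := norm_nonneg z.1
      refine (N_le z _).2 ⟨by linarith, fun n => by linarith [ps_le n z.1], ?_⟩
      have := Complex.norm_le_abs_re_add_abs_im (hh z)
      rw [hh_apply] at this ⊢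
      have c := tot_le z.1
      rw [Real.norm_eq_abs] at b
      simp only at this
      linarith

instance : CompleteSpace X := (completeSpace_congr (e := E.toEquiv) E.isUniformEmbedding).2
  inferInstance

theorem X_rnp (f : ℝ → X) (K : NNReal) (hf : LipschitzWith K f) :
    ∀ᵐ t ∂(volume : Measure ℝ), DifferentiableAt ℝ f t := by
  have h := E.lipschitz.comp hf
  filter_upwards [L1_rnp _ _ (LipschitzWith.prod_fst.comp h),
    (LipschitzWith.prod_snd.comp h).ae_differentiableAt_real] with t a b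
  exact E.comp_differentiableAt_iff.1 (a.prodMk b)

noncomputable def D : X →L[ℝ] L1 := ContinuousLinearMap.fst ℝ _ _ ∘L (E : X →L[ℝ] L1 × ℝ)

noncomputable def η : X →L[ℝ] ℝ := ContinuousLinearMap.snd ℝ _ _ ∘L (E : X →L[ℝ] L1 × ℝ)

noncomputable def co (m : ℕ) : X →L[ℝ] ℝ := lp.evalCLM ℝ (fun _ : ℕ => ℝ) 1 m ∘L D

noncomputable def ξ (n : ℕ) : X →L[ℝ] ℝ := ps n ∘L D

noncomputable def σ : X →L[ℝ] ℝ := tot ∘L D

noncomputable def pl : X →L[ℝ] ℂ := hh ∘L (E : X →L[ℝ] L1 × ℝ)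

noncomputable def e (m : ℕ) : X := E.symm (lp.single 1 m 1, 0)

noncomputable def j : X := E.symm (0, 1)

theorem H_apply (z : X) : pl z = ⟨σ z, η z⟩ := hh_apply _

theorem norm_le_iff (z : X) (c : ℝ) :
    ‖z‖ ≤ c ↔ 5 / 203 * ‖D z‖ ≤ c ∧ (∀ n, |ξ n z| ≤ c) ∧ ‖pl z‖ ≤ c := N_le z c

theorem D_le (z : X) : 5 / 203 * ‖D z‖ ≤ ‖z‖ := ((norm_le_iff z _).1 le_rfl).1

theorem ξ_le (n : ℕ) (z : X) : |ξ n z| ≤ ‖z‖ := ((norm_le_iff z _).1 le_rfl).2.1 n

theorem H_le (z : X) : ‖pl z‖ ≤ ‖z‖ := ((norm_le_iff z _).1 le_rfl).2.2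

theorem η_le (z : X) : |η z| ≤ ‖z‖ := by
  have := (Complex.abs_im_le_norm _).trans (H_le z)
  rwa [H_apply] at this

theorem σ_le (z : X) : |σ z| ≤ ‖z‖ := by
  have := (Complex.abs_re_le_norm _).trans (H_le z)
  rwa [H_apply] at this

theorem H_le_add (z : X) : ‖pl z‖ ≤ |σ z| + |η z| := by
  rw [H_apply]; exact Complex.norm_le_abs_re_add_abs_im _

theorem ξ_le_D (n : ℕ) (z : X) : |ξ n z| ≤ ‖D z‖ := ps_le n _

theorem σ_le_D (z : X) : |σ z| ≤ ‖D z‖ := tot_le _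

theorem ξ_apply (n : ℕ) (z : X) : ξ n z = ∑ m ∈ range n, co m z := ps_apply n _

theorem co_eq (m : ℕ) (z : X) : co m z = ξ (m + 1) z - ξ m z := by
  rw [ξ_apply, ξ_apply, sum_range_succ]; ring

theorem sum_co_le (z : X) (s : Finset ℕ) : ∑ m ∈ s, |co m z| ≤ ‖D z‖ := sum_le_norm _ s

theorem D_le_of (z : X) (c : ℝ) (h : ∀ s : Finset ℕ, ∑ m ∈ s, |co m z| ≤ c) : ‖D z‖ ≤ c :=
  norm_le_of_sum _ c h

theorem ξ_tendsto (z : X) : Tendsto (fun n => ξ n z) atTop (𝓝 (σ z)) := by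
  have h : Summable fun m => D z m := .of_norm (by simpa using (D z).2.summable)
  simp only [ξ_apply]
  exact h.hasSum.tendsto_sum_nat

theorem D_e (m : ℕ) : D (e m) = lp.single 1 m 1 := rfl

@[simp] theorem norm_D_e (m : ℕ) : ‖D (e m)‖ = 1 := by
  rw [D_e, lp.norm_single one_pos, norm_one]

@[simp] theorem co_e (m n : ℕ) : co m (e n) = if m = n then 1 else 0 := by
  show (lp.single (E := fun _ : ℕ => ℝ) 1 n (1 : ℝ)) m = _
  rw [lp.single_apply, Pi.single_apply]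

@[simp] theorem η_e (m : ℕ) : η (e m) = 0 := rfl

@[simp] theorem ξ_e (n m : ℕ) : ξ n (e m) = if m < n then 1 else 0 := by
  simp [ξ_apply]

@[simp] theorem σ_e (m : ℕ) : σ (e m) = 1 := by
  refine tendsto_nhds_unique (ξ_tendsto _) (tendsto_const_nhds.congr' ?_)
  filter_upwards [eventually_gt_atTop m] with n hn
  simp [hn]

@[simp] theorem D_j : D j = 0 := rfl

@[simp] theorem η_j : η j = 1 := rfl

@[simp] theorem co_j (m : ℕ) : co m j = 0 := by simp [co]

@[simp] theorem ξ_j (m : ℕ) : ξ m j = 0 := by simp [ξ]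

@[simp] theorem σ_j : σ j = 0 := by simp [σ]

theorem hasSum_e (z : X) : HasSum (fun m => co m z • e m) (z - η z • j) := by
  have h := (E.symm : L1 × ℝ →L[ℝ] X).hasSum ((ContinuousLinearMap.inl ℝ L1 ℝ).hasSum
    (lp.hasSum_single (by simp) (D z)))
  have e1 : z - η z • j = (E.symm : L1 × ℝ →L[ℝ] X) (ContinuousLinearMap.inl ℝ L1 ℝ (D z)) := by
    apply E.injective
    refine Prod.ext ?_ ?_
    · show D (z - η z • j) = D z
      simp
    · show η (z - η z • j) = 0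
      simp
  rw [e1]
  refine h.congr_fun fun m => ?_
  apply E.injective
  refine Prod.ext ?_ ?_
  · show D (co m z • e m) = lp.single 1 m (co m z)
    rw [map_smul, D_e, ← lp.single_smul, smul_eq_mul, mul_one]
  · show η (co m z • e m) = 0
    simp

theorem D_rest (z : X) (F : Finset ℕ) :
    ‖D (z - ∑ m ∈ F, co m z • e m)‖ = ‖D z‖ - ∑ m ∈ F, |co m z| := by
  have := lp.norm_compl_sum_single (p := 1) (by simp) (D z) F
  simp only [ENNReal.toReal_one, Real.rpow_one, Real.norm_eq_abs] at this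
  rw [map_sub, map_sum]
  refine Eq.trans ?_ this
  congr 2
  refine sum_congr rfl fun m _ => ?_
  rw [map_smul, D_e, ← lp.single_smul, smul_eq_mul, mul_one]; rfl

theorem D_supp (z : X) (F : Finset ℕ) (h : ∀ m ∉ F, co m z = 0) : ‖D z‖ = ∑ m ∈ F, |co m z| := by
  refine le_antisymm (D_le_of _ _ fun s => ?_) (sum_co_le _ _)
  rw [← sum_filter_add_sum_filter_not s (· ∈ F), sum_eq_zero (s := s.filter (· ∉ F))
    (fun m hm => by rw [h m (mem_filter.1 hm).2, abs_zero]), add_zero]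
  exact sum_le_sum_of_subset_of_nonneg (fun m hm => (mem_filter.1 hm).2) fun _ _ _ => abs_nonneg _

theorem norm_e (m : ℕ) : ‖e m‖ ≤ 1 :=
  (norm_le_iff _ _).2 ⟨by norm_num, fun n => by rw [ξ_e]; split_ifs <;> simp,
    (H_le_add _).trans (by simp)⟩

theorem norm_j : ‖j‖ ≤ 1 :=
  (norm_le_iff _ _).2 ⟨by simp, fun n => by simp, (H_le_add _).trans (by simp)⟩

theorem κ_le (a b : ℝ) (hab : a ^ 2 + b ^ 2 = 1) (z : X) : |a * σ z + b * η z| ≤ ‖z‖ := by
  have h := H_le z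
  have h2 := Complex.sq_norm (pl z)
  rw [H_apply] at h h2
  rw [Complex.normSq_mk] at h2
  refine le_trans (abs_le_of_sq_le_sq' ?_ (norm_nonneg _) |> abs_le.2) h
  rw [h2]
  nlinarith [sq_nonneg (a * η z - b * σ z)]

noncomputable def A (P k : ℕ) : X := ∑ i ∈ range k, (-1 : ℝ) ^ i • e (P + i)

theorem η_A (P k : ℕ) : η (A P k) = 0 := by simp [A]

theorem σ_A (P k : ℕ) : σ (A P k) = if Even k then 0 else 1 := by
  simp [A, neg_one_geom_sum]

theorem D_A (P k : ℕ) : ‖D (A P k)‖ ≤ k := by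
  rw [A, map_sum]
  refine (norm_sum_le _ _).trans (le_of_eq ?_)
  simp [norm_smul]

theorem ξ_A (P k n : ℕ) : ξ n (A P k) = if Even (min k (n - P)) then 0 else 1 := by
  rw [← neg_one_geom_sum, A, map_sum]
  simp only [map_smul, ξ_e, smul_eq_mul, mul_ite, mul_one, mul_zero]
  rw [← sum_filter]
  refine sum_congr ?_ fun _ _ => rfl
  ext i; simp; omega

theorem co_A (P k m : ℕ) : co m (A P k) = if P ≤ m ∧ m < P + k then (-1) ^ (m - P) else 0 := by
  rw [A, map_sum]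
  simp only [map_smul, co_e, smul_eq_mul, mul_ite, mul_one, mul_zero]
  split_ifs with h
  · rw [sum_eq_single (m - P) (fun i _ hi => if_neg (by omega)) fun hi => by simp at hi; omega,
      if_pos (by omega)]
  · exact sum_eq_zero fun i hi => if_neg (by simp at hi; omega)

end Pool.Agent.H.MP_9d0e4c_an
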