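import Pool.Agent.H.MP_9d0e4c_an.Layer

namespace Pool.Agent.H.MP_9d0e4c_an

open Filter Topology Finset

section general

variable {Y Z : Type} [NormedAddCommGroup Y] [NormedSpace ℝ Y] [NormedAddCommGroup Z]
  [NormedSpace ℝ Z]

theorem sep (W : Submodule ℝ Y) (hW : IsClosed (W : Set Y))
    (h : ∀ f : Y →L[ℝ] ℝ, (∀ w ∈ W, f w = 0) → f = 0) (y : Y) : y ∈ W := by
  by_contra hy
  obtain ⟨f, u, h1, h2⟩ := geometric_hahn_banach_point_closed W.convex hW hy
  have h0 := h2 0 W.zero_mem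
  have : f = 0 := h f fun w hw => by
    by_contra hn
    have := h2 _ (W.smul_mem (u / f w) hw)
    rw [map_smul, smul_eq_mul, div_mul_cancel₀ _ hn] at this
    exact lt_irrefl _ this
  rw [this] at h1 h0
  exact lt_asymm h1 h0

def Expo (a : Y) : Prop := ∃ f : Y →L[ℝ] ℝ, ‖f‖ ≤ 1 ∧ ‖a‖ ≤ 1 ∧ f a = 1 ∧
  ∀ ε > 0, ∃ θ > 0, ∀ x, ‖x‖ ≤ 1 → 1 - θ < f x → ‖x - a‖ ≤ ε

theorem norm_eq_of (Φ : (Z →L[ℝ] ℝ) ≃ₗᵢ[ℝ] (Y →L[ℝ] ℝ)) (z : Z) (y : Y) (c : ℝ) (w : Z) (x : Y)
    (hc : 0 ≤ c) (h : ∀ g : Z →L[ℝ] ℝ, |g z - g w - (Φ g y - Φ g x)| ≤ c * ‖g‖) :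
    ‖z - w‖ ≤ ‖y - x‖ + c := by
  obtain ⟨g, hg, h1⟩ := exists_dual_vector'' ℝ (z - w)
  have a := h g
  have b := (Φ g).le_of_opNorm_le (c := 1) (by rwa [Φ.norm_map]) (y - x)
  rw [map_sub] at h1 b
  have c' := mul_le_of_le_one_right hc hg
  rw [Real.norm_eq_abs, abs_le] at b
  rw [abs_le] at a
  have h2 : g z - g w = ‖z - w‖ := h1
  linarith [a.2, b.2]

theorem expo_approx (Φ : (Z →L[ℝ] ℝ) ≃ₗᵢ[ℝ] (Y →L[ℝ] ℝ)) (a : Y) (ha : Expo a) (ε : ℝ) (hε : 0 < ε) :
    ∃ z : Z, ∀ g : Z →L[ℝ] ℝ, |g z - Φ g a| ≤ ε * ‖g‖ := by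
  obtain ⟨f, hf, na, fa, H⟩ := ha
  obtain ⟨θ, θ0, hθ⟩ := H (ε / 2) (by positivity)
  have k1 : ∀ g : Y →L[ℝ] ℝ, ‖g‖ ≤ θ / 2 → ‖f + g‖ ≤ 1 + g a + ε / 2 * ‖g‖ := fun g hg => by
    have ga := g.le_of_opNorm_le_of_le hg na
    rw [Real.norm_eq_abs, abs_le] at ga
    have g0 : 0 ≤ ε / 2 * ‖g‖ := by positivity
    have k : ∀ x, ‖x‖ ≤ 1 → f x + g x ≤ 1 + g a + ε / 2 * ‖g‖ := fun x hx => by
      have fx := (le_abs_self _).trans (f.le_of_opNorm_le_of_le hf hx)
      by_cases h : 1 - θ < f x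
      · have := (le_abs_self _).trans (g.le_of_opNorm_le_of_le le_rfl (hθ x hx h))
        rw [map_sub] at this
        linarith
      · have := (le_abs_self _).trans (g.le_of_opNorm_le_of_le hg hx)
        linarith [ga.1]
    refine ContinuousLinearMap.opNorm_le_of_unit_norm (le_trans (by simp) (k 0 (by simp)))
      fun x hx => ?_
    have := k (-x) (by simp [hx])
    rw [map_neg, map_neg] at this
    exact abs_le.2 ⟨by rw [_root_.add_apply]; linarith, k x hx.le⟩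
  have f1 : 1 ≤ ‖Φ.symm f‖ := by
    have := f.le_of_opNorm_le_of_le le_rfl na
    rw [Φ.symm.norm_map]
    simpa [fa] using this
  obtain ⟨z, hz, h⟩ : ∃ z : Z, ‖z‖ ≤ 1 ∧ 1 - ε * θ / 4 < Φ.symm f z := by
    obtain ⟨z, hz, h⟩ := (Φ.symm f).exists_lt_apply_of_lt_opNorm (r := 1 - ε * θ / 4)
      (by linarith [mul_pos hε θ0])
    rcases le_total 0 (Φ.symm f z) with h0 | h0
    · exact ⟨z, hz.le, by rwa [Real.norm_of_nonneg h0] at h⟩
    · exact ⟨-z, by simpa using hz.le, by rwa [Real.norm_of_nonpos h0, ← map_neg] at h⟩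
  have k2 : ∀ g : Z →L[ℝ] ℝ, ‖g‖ ≤ θ / 2 → g z - Φ g a ≤ ε * (θ / 2) := fun g hg => by
    have a1 := k1 (Φ g) (by rwa [Φ.norm_map])
    have a2 := (le_abs_self _).trans ((Φ.symm f + g).le_of_opNorm_le_of_le le_rfl hz)
    rw [← Φ.norm_map, map_add, Φ.apply_symm_apply, _root_.add_apply] at a2
    rw [Φ.norm_map] at a1
    nlinarith
  refine ⟨z, fun g => ?_⟩
  by_cases hg : g = 0
  · simp [hg]
  have g0 : 0 < ‖g‖ := norm_pos_iff.2 hg
  have n : ‖(θ / 2 / ‖g‖) • g‖ ≤ θ / 2 := by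
    rw [norm_smul, Real.norm_of_nonneg (by positivity), div_mul_cancel₀ _ g0.ne']
  have a1 := k2 _ n
  have a2 := k2 (-((θ / 2 / ‖g‖) • g)) (by rwa [norm_neg])
  simp only [map_neg, map_smul, _root_.neg_apply, _root_.smul_apply, smul_eq_mul] at a1 a2
  have : |θ / 2 / ‖g‖ * (g z - Φ g a)| ≤ ε * (θ / 2) := abs_le.2 ⟨by linarith, by linarith⟩
  rw [abs_mul, abs_of_pos (by positivity), div_mul_eq_mul_div, div_le_iff₀ g0] at this
  nlinarith

theorem lim_mem [CompleteSpace Z] (Φ : (Z →L[ℝ] ℝ) ≃ₗᵢ[ℝ] (Y →L[ℝ] ℝ)) (a : Y)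
    (h : ∀ ε > 0, ∃ z : Z, ∀ g : Z →L[ℝ] ℝ, |g z - Φ g a| ≤ ε * ‖g‖) :
    ∃ z : Z, ∀ g : Z →L[ℝ] ℝ, g z = Φ g a := by
  choose u hu using fun n : ℕ => h ((1 / 2) ^ n) (by positivity)
  have hc : CauchySeq u := cauchySeq_of_le_geometric (1 / 2) 2 (by norm_num) fun n => by
    rw [dist_eq_norm]
    have := norm_eq_of Φ (u n) a (2 * (1 / 2) ^ n) (u (n + 1)) a (by positivity) fun g => by
      have a1 := hu n g
      have a2 := hu (n + 1) g
      have a3 : 0 ≤ (1 / 2 : ℝ) ^ n * ‖g‖ := by positivity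
      rw [pow_succ] at a2
      rw [abs_le] at *
      constructor <;> linarith [a1.1, a1.2, a2.1, a2.2]
    simpa using this
  obtain ⟨z, hz⟩ := cauchySeq_tendsto_of_complete hc
  refine ⟨z, fun g => sub_eq_zero.1 (abs_nonpos_iff.1 ?_)⟩
  have t1 := (((g.continuous.tendsto z).comp hz).sub_const (Φ g a)).abs
  have t2 := (tendsto_pow_atTop_nhds_zero_of_lt_one (r := (1 / 2 : ℝ)) (by norm_num)
    (by norm_num)).mul_const ‖g‖
  simpa using le_of_tendsto_of_tendsto' t1 t2 fun n => hu n g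

theorem unique_predual [CompleteSpace Z] [CompleteSpace Y]
    (hY : ∀ f : Y →L[ℝ] ℝ, (∀ a, Expo a → f a = 0) → f = 0)
    (Φ : (Z →L[ℝ] ℝ) ≃ₗᵢ[ℝ] (Y →L[ℝ] ℝ)) : Nonempty (Z ≃ₗᵢ[ℝ] Y) := by
  let W : Submodule ℝ Y :=
    { carrier := {a | ∃ z : Z, ∀ g : Z →L[ℝ] ℝ, g z = Φ g a}
      add_mem' := by
        rintro a b ⟨z, hz⟩ ⟨w, hw⟩
        exact ⟨z + w, fun g => by rw [map_add, map_add, hz, hw]⟩
      zero_mem' := ⟨0, fun g => by simp⟩
      smul_mem' := by
        rintro c a ⟨z, hz⟩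
        exact ⟨c • z, fun g => by rw [map_smul, map_smul, hz]⟩ }
  have hW : IsClosed (W : Set Y) := isClosed_of_closure_subset fun a ha =>
    lim_mem Φ a fun ε hε => by
      obtain ⟨b, ⟨z, hz⟩, hb⟩ := Metric.mem_closure_iff.1 ha ε hε
      refine ⟨z, fun g => ?_⟩
      rw [hz, ← map_sub, mul_comm, ← Φ.norm_map]
      rw [dist_comm, dist_eq_norm] at hb
      exact (Φ g).le_of_opNorm_le_of_le le_rfl hb.le
  have all := sep W hW fun f hf => hY f fun a ha => hf a (lim_mem Φ a (expo_approx Φ a ha))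
  choose I hI using all
  have ext : ∀ z w : Z, (∀ g : Z →L[ℝ] ℝ, g z = g w) → z = w := fun z w h =>
    (SeparatingDual.eq_iff_forall_dual_eq (R := ℝ)).2 h
  let J : Y →ₗᵢ[ℝ] Z :=
    { toFun := I
      map_add' := fun a b => ext _ _ fun g => by rw [map_add, hI, hI, hI, map_add]
      map_smul' := fun c a => ext _ _ fun g => by rw [map_smul, hI, hI, map_smul]; rfl
      norm_map' := fun a => by
        refine le_antisymm ?_ ?_
        · simpa using norm_eq_of Φ (I a) a 0 0 0 le_rfl fun g => by simp [hI]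
        · simpa using norm_eq_of Φ.symm a (I a) 0 0 0 le_rfl fun g => by simp [hI] }
  have hJ := sep J.toLinearMap.range J.isometry.isClosedEmbedding.isClosed_range fun g hg => by
    have : Φ g = 0 := ContinuousLinearMap.ext fun a => (hI a g).symm.trans (hg _ ⟨a, rfl⟩)
    simpa using this
  exact ⟨(LinearIsometryEquiv.ofSurjective J hJ).symm⟩

end general

theorem norm_le_D (z : X) : ‖z‖ ≤ ‖D z‖ + |η z| := by
  have a := norm_nonneg (D z)
  have b := abs_nonneg (η z)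
  exact (norm_le_iff _ _).2 ⟨by linarith, fun n => by linarith [ξ_le_D n z],
    (H_le_add z).trans (by linarith [σ_le_D z])⟩

theorem expo (z : X) (F : Finset ℕ) (hs : ∀ m ∉ F, co m z = 0) (hz : ‖z‖ ≤ 1)
    (hD : ∑ m ∈ F, |co m z| = 203 / 5) (hh : σ z ^ 2 + η z ^ 2 = 1) (nz : ∀ m ∈ F, co m z ≠ 0)
    (hc : F.card ≤ 21) (loc : ∀ x, ‖x‖ ≤ 1 → ∀ m ∈ F, (SignType.sign (co m z) : ℝ) * co m x ≤
      |co m z| + (2 * ‖D (x - ∑ m ∈ F, co m x • e m)‖ + |σ x - σ z|)) : Expo z := by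
  have k : ∀ x, |(σ z • σ + η z • η) x| ≤ ‖x‖ := fun x => κ_le _ _ hh x
  refine ⟨(1 / 2 : ℝ) • (gs F z + (σ z • σ + η z • η)), ?_, hz, ?_, fun ε hε => ?_⟩
  · refine ContinuousLinearMap.opNorm_le_bound _ zero_le_one fun x => ?_
    have := (abs_add_le _ _).trans (add_le_add ((gs_dom F z).le x) (k x))
    rw [_root_.smul_apply, norm_smul, _root_.add_apply, Real.norm_eq_abs, Real.norm_eq_abs,
      abs_of_pos (by norm_num)]
    linarith
  · simp only [_root_.smul_apply, _root_.add_apply, gs_self, hD, smul_eq_mul]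
    linarith
  obtain ⟨t, t0, t1, ht⟩ : ∃ t : ℝ, 0 < t ∧ t ≤ 1 ∧ 8000 * t ≤ ε :=
    ⟨min 1 (ε / 8000), by positivity, min_le_left _ _, by linarith [min_le_right 1 (ε / 8000)]⟩
  refine ⟨t ^ 2, by positivity, fun x hx h => ?_⟩
  have a1 := (le_abs_self _).trans (((gs_dom F z).le x).trans hx)
  have a2 := (le_abs_self _).trans ((k x).trans hx)
  rw [_root_.smul_apply, _root_.add_apply, smul_eq_mul] at h
  have tt : t ^ 2 ≤ t := by nlinarith
  have b1 : 1 - 2 * t < gs F z x := by linarith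
  have b2 : 1 - 2 * t ^ 2 < σ z * σ x + η z * η x := by
    have : (σ z • σ + η z • η) x = σ z * σ x + η z * η x := rfl
    linarith
  have b3 : σ x ^ 2 + η x ^ 2 ≤ 1 := by
    have := pow_le_one₀ (n := 2) (norm_nonneg _) ((H_le x).trans hx)
    rw [H_apply, Complex.sq_norm, Complex.normSq_mk] at this
    linarith
  have b4 : |σ x - σ z| ≤ 2 * t := abs_le.2 (abs_le_of_sq_le_sq'
    (by nlinarith [sq_nonneg (η x - η z)]) (by positivity))
  have b5 : |η x - η z| ≤ 2 * t := abs_le.2 (abs_le_of_sq_le_sq'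
    (by nlinarith [sq_nonneg (σ x - σ z)]) (by positivity))
  have c1 := D_rest x F
  have c2 := (le_abs_self _).trans (gs_dom F z x)
  have c3 := (D_le x).trans hx
  set r := x - ∑ m ∈ F, co m x • e m with hr
  have c4 : ‖D r‖ ≤ 82 * t := by linarith
  have c5 : ∑ m ∈ F, |co m x - co m z| ≤
      ∑ m ∈ F, (|co m z| - (SignType.sign (co m z) : ℝ) * co m x + 332 * t) :=
    sum_le_sum fun m hm => by
      have := loc x hx m hm
      rcases (nz m hm).lt_or_gt with h | h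
      · simp only [sign_neg h, abs_of_neg h, SignType.coe_neg_one] at this ⊢
        rw [abs_le]; constructor <;> linarith
      · simp only [sign_pos h, abs_of_pos h, SignType.coe_one] at this ⊢
        rw [abs_le]; constructor <;> linarith
  rw [sum_add_distrib, sum_sub_distrib, hD, sum_const, nsmul_eq_mul] at c5
  rw [gs_apply] at b1
  have c6 : (F.card : ℝ) ≤ 21 := by exact_mod_cast hc
  have c7 := D_rest (x - z) F
  have c8 := D_rest z F
  rw [← D_supp z F hs, sub_self] at c8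
  have c9 : x - z - ∑ m ∈ F, co m (x - z) • e m = r - (z - ∑ m ∈ F, co m z • e m) := by
    simp only [hr, map_sub, sub_smul, sum_sub_distrib]; abel
  rw [c9, map_sub, norm_eq_zero.1 c8, sub_zero] at c7
  have d := norm_le_D (x - z)
  rw [map_sub η] at d
  simp only [map_sub (co _)] at c7
  nlinarith

noncomputable def pt (a b : ℕ) (y : ℝ) : X :=
  e a - (2 : ℝ) • A (b + 1) 19 + (8 / 5 : ℝ) • e (b + 20) + y • j

theorem pt_expo (a b : ℕ) (hab : a ≤ b) (y : ℝ) (hy : y ^ 2 = 16 / 25) : Expo (pt a b y) := by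
  have c : ∀ m, co m (pt a b y) = (if m = a then 1 else 0) -
      2 * (if b + 1 ≤ m ∧ m < b + 1 + 19 then (-1) ^ (m - (b + 1)) else 0) +
      8 / 5 * if m = b + 20 then 1 else 0 := fun m => by
    simp only [pt, map_add, map_sub, map_smul, co_e, co_A, co_j, smul_eq_mul, mul_zero, add_zero]
  have ca : co a (pt a b y) = 1 := by
    rw [c, if_pos rfl, if_neg (by omega), if_neg (by omega)]; norm_num
  have cb : co (b + 20) (pt a b y) = 8 / 5 := by
    rw [c, if_neg (by omega), if_neg (by omega), if_pos rfl]; norm_num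
  have cm : ∀ m ∈ Ico (b + 1) (b + 20), |co m (pt a b y)| = 2 := fun m hm => by
    rw [mem_Ico] at hm
    rw [c, if_neg (by omega), if_pos (by omega), if_neg (by omega)]
    simp [abs_mul]
  have sσ : σ (pt a b y) = 3 / 5 := by
    simp only [pt, map_add, map_sub, map_smul, σ_e, σ_A, σ_j, if_neg (by decide : ¬ Even 19)]
    norm_num
  have sη : η (pt a b y) = y := by simp [pt, η_A]
  have hs : ∀ m ∉ insert a (Ico (b + 1) (b + 21)), co m (pt a b y) = 0 := fun m hm => by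
    simp only [mem_insert, mem_Ico, not_or, not_and] at hm
    rw [c, if_neg hm.1, if_neg (by omega), if_neg (by omega)]; norm_num
  have hD : ∑ m ∈ insert a (Ico (b + 1) (b + 21)), |co m (pt a b y)| = 203 / 5 := by
    rw [sum_insert (by simp; omega), sum_Ico_succ_top (by omega), sum_congr rfl cm, ca, cb]
    simp; norm_num
  have hh : σ (pt a b y) ^ 2 + η (pt a b y) ^ 2 = 1 := by rw [sσ, sη, hy]; norm_num
  have cases : ∀ m ∈ insert a (Ico (b + 1) (b + 21)),
      m = a ∨ m = b + 20 ∨ m ∈ Ico (b + 1) (b + 20) := fun m hm => by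
    simp only [mem_insert, mem_Ico] at hm ⊢; omega
  refine expo _ _ hs ((norm_le_iff _ _).2 ⟨?_, fun n => ?_, ?_⟩) hD hh (fun m hm => ?_)
    ((card_insert_le _ _).trans (by simp)) fun x hx m hm => ?_
  · rw [D_supp _ _ hs, hD]; norm_num
  · simp only [pt, map_add, map_sub, map_smul, ξ_e, ξ_A, ξ_j, smul_eq_mul, mul_zero, add_zero]
    by_cases h1 : a < n
    · by_cases h2 : b + 20 < n
      · rw [if_pos h1, if_pos h2, min_eq_left (by omega), if_neg (by decide)]
        norm_num [abs_of_pos]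
      · rw [if_pos h1, if_neg h2]
        split_ifs <;> norm_num
    · rw [if_neg h1, if_neg (show ¬ b + 20 < n by omega), show n - (b + 1) = 0 by omega]
      simp
  · refine abs_le_of_sq_le_sq' ?_ zero_le_one |>.2
    rw [H_apply, Complex.sq_norm, Complex.normSq_mk]
    linarith
  · rcases cases m hm with rfl | rfl | h
    · rw [ca]; norm_num
    · rw [cb]; norm_num
    · rw [← abs_pos, cm m h]; norm_num
  · have n0 := norm_nonneg (D (x - ∑ m ∈ insert a (Ico (b + 1) (b + 21)), co m x • e m))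
    have n1 := abs_nonneg (σ x - σ (pt a b y))
    have x1 := (ξ_le (m + 1) x).trans hx
    have x2 := (ξ_le m x).trans hx
    rcases cases m hm with rfl | rfl | h
    · have r1 := ξ_le_D m (x - ∑ m ∈ insert m (Ico (b + 1) (b + 21)), co m x • e m)
      rw [map_sub, map_sum, sum_eq_zero fun i hi => by
        simp only [mem_insert, mem_Ico] at hi
        rw [map_smul, ξ_e, if_neg (by omega), smul_zero], sub_zero] at r1
      rw [ca, co_eq m x, sign_one, SignType.coe_one, abs_one]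
      rw [abs_le] at x1 r1
      linarith [x1.2, r1.1]
    · have r1 := ξ_le_D (b + 21) (x - ∑ m ∈ insert a (Ico (b + 1) (b + 21)), co m x • e m)
      have r2 := σ_le_D (x - ∑ m ∈ insert a (Ico (b + 1) (b + 21)), co m x • e m)
      have r3 : ξ (b + 21) (∑ m ∈ insert a (Ico (b + 1) (b + 21)), co m x • e m) =
          σ (∑ m ∈ insert a (Ico (b + 1) (b + 21)), co m x • e m) := by
        rw [map_sum, map_sum]
        refine sum_congr rfl fun i hi => ?_
        simp only [mem_insert, mem_Ico] at hi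
        rw [map_smul, map_smul, ξ_e, if_pos (by omega), σ_e]
      rw [map_sub (ξ _), r3] at r1
      rw [map_sub σ] at r2
      rw [cb, co_eq (b + 20) x, sign_pos (by norm_num), SignType.coe_one, abs_of_pos (by norm_num),
        sσ]
      have := le_abs_self (σ x - 3 / 5)
      rw [abs_le] at x2 r1 r2
      linarith [x2.1, r1.2, r2.1]
    · have := mul_le_of_le_one_left (abs_nonneg (co m x)) (sign_abs_le (co m (pt a b y)))
      rw [← abs_mul] at this
      have h2 : |co m x| ≤ 2 := by rw [co_eq]; exact (abs_sub _ _).trans (by linarith)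
      rw [cm m h]
      linarith [le_abs_self ((SignType.sign (co m (pt a b y)) : ℝ) * co m x)]

theorem X_expo (f : X →L[ℝ] ℝ) (h : ∀ a, Expo a → f a = 0) : f = 0 := by
  have k : ∀ a b, a ≤ b → ∀ y : ℝ, y ^ 2 = 16 / 25 →
      f (e a) - 2 * f (A (b + 1) 19) + 8 / 5 * f (e (b + 20)) + y * f j = 0 := fun a b hab y hy => by
    simpa only [pt, map_add, map_sub, map_smul, smul_eq_mul] using h _ (pt_expo a b hab y hy)
  have k0 := k 0 0 le_rfl (4 / 5) (by norm_num)
  have hj : f j = 0 := by linarith [k 0 0 le_rfl (-4 / 5) (by norm_num)]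
  have he : ∀ m, f (e m) = f (e 0) := fun m => by
    linarith [k m m le_rfl (4 / 5) (by norm_num), k 0 m m.zero_le (4 / 5) (by norm_num)]
  have hA : f (A (0 + 1) 19) = f (e 0) := by
    simp only [A, map_sum, map_smul, he, smul_eq_mul, ← sum_mul, neg_one_geom_sum,
      if_neg (by decide : ¬ Even 19), one_mul]
  have h0 : f (e 0) = 0 := by rw [hA, he (0 + 20), hj] at k0; linarith
  ext z
  have := (f.hasSum (hasSum_e z)).unique (a₂ := 0) (by simpa [he, h0] using hasSum_zero (α := ℝ))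
  simpa [hj] using this

theorem X_unique {Z : Type} [NormedAddCommGroup Z] [NormedSpace ℝ Z] [CompleteSpace Z]
    (Φ : (Z →L[ℝ] ℝ) ≃ₗᵢ[ℝ] (X →L[ℝ] ℝ)) : Nonempty (Z ≃ₗᵢ[ℝ] X) := unique_predual X_expo Φ

end Pool.Agent.H.MP_9d0e4c_an
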